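import Pool.Agent.K3h50.MB.GauM

/-!
# Unrestricted boxes: Gaussian extensions of arbitrary actions

`IsGaussianExt μ S ν H Θ`: the group `G` acts by `S` on the probability space `(X, μ)` (an arbitrary
measure preserving action) and by `Θ` on `X × Y` over `S`; `H` is a linear space of centered Gaussian
random variables on the probability space `(Y, ν)` which generates the σ-algebra modulo null sets; for
every `g` and almost every `x` the fibre map `y ↦ (Θ g (x, y))_2` preserves `ν` and maps `H` into
itself (`h ↦ h ∘ (fibre map)`, modulo null sets). So `Θ` is the skew product over `S` given by a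
measurable cocycle of `G` with values in the orthogonal maps of a real Hilbert space, acting on the
Gaussian process of this space. The base is arbitrary, and so is the group.

`relCorr μ ν Θ g g' h h'` is the mean over `x` of `|∫ h ((Θ g (x, y))_2) h' ((Θ g' (x, y))_2) dν(y)|`,
the modulus of the correlation of `h ∘ Θ g` and `h' ∘ Θ g'` relative to the base.

`S_j(m)`, `m ∈ ℕ^k`, are arbitrary families of elements of `G` such that for all `h`, `h'` in a subset
`ℛ` of `H`, dense in the norm of `L¹`,

* `∑_{m, m'} relCorr (S_j(m)) (S_j(m')) h h / ∏_l (1 + max (m_l, m'_l))² < ∞`,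
* `∑_m relCorr (S_i(m)) (S_j(m)) h h' / ∏_l (1 + m_l) < ∞` for `i ≠ j`,
* `S_j` is an ordered product `g b_1^(m_1) ⋯ b_k^(m_k)`, or the unrestricted box averages of single
  bounded functions along `S_j` converge almost everywhere.

For commuting `T_1, …, T_d` and polynomials `P_ij` of degree at most one the
`T_1^(P_1j(m)) ⋯ T_d^(P_dj(m))` are ordered products.

Then for all `f_j ∈ L^∞(X × Y)` and almost every `z` the averages of
`∏_j f_j (S_j(m) z) - ∏_j E(f_j | X) (S_j(m) z)` over the boxes `[1, M_1] × ⋯ × [1, M_k]` tend to zero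
as `min M_l → ∞`, with no restriction on the shape of the boxes.

Proof. Along the fibre of almost every `x` a product of exponentials `∏_l exp (i h_l)` is the
exponential of the sum of the `h_l`. Let `K` be the Gram matrix of these sums for the points of a box
and `K'` the sum over `l` of the Gram matrices of the single factors, times their number. Then `K' - K`
is positive semidefinite, and hence (by Schur's product theorem) so is the matrix of the
`exp K' - exp K`; therefore the second moment over the box is bounded by the correlations of the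
single factors with themselves, and the cross correlations at different points of the box play no
role. The weighted sums give the convergence for unrestricted boxes, the expectations are compared by
a multi-parameter version of Kronecker's lemma.
-/

set_option autoImplicit false

open Filter Topology MeasureTheory
open scoped ENNReal

namespace Pool.Agent.Results.MP_f720ae_an.GaussianExtensionBoxes

open Pool.Agent.K3h50.MB (IsGaussianExt relCorr)

/-- The ordered product `g * b_1 ^ m_1 * ⋯ * b_k ^ m_k`. -/
def boxWord {G : Type} [Group G] {k : ℕ} (g : G) (b : Fin k → G) (m : Fin k → ℕ) : G :=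
  g * (List.ofFn fun l => b l ^ m l).prod

/-- The averages over the boxes `[1, M_1] × ⋯ × [1, M_k]` of single bounded functions along the maps
`t m` converge almost everywhere as `min M_l → ∞`. -/
def SingleAveragesConverge {Z : Type} [MeasurableSpace Z] (k : ℕ) (P : Measure Z)
    (t : (Fin k → ℕ) → Z → Z) : Prop :=
  ∀ F : Z → ℝ, Measurable F → (∃ C : ℝ, ∀ z, |F z| ≤ C) →
    ∀ᵐ z ∂P, ∃ L : ℝ, Tendsto (fun M : Fin k → ℕ => (∏ l, (M l : ℝ))⁻¹ *
      ∑ n ∈ Fintype.piFinset (fun l => Finset.Icc 1 (M l)), F (t n z)) atTop (𝓝 L)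

/-- Let the action `Θ` of `G` on `X × Y` be a Gaussian extension of the arbitrary action `S` on `X`,
and let `S_1, …, S_n : ℕ^k → G` be families with summable relative correlations, each an ordered
product or such that the unrestricted box averages of single bounded functions converge almost
everywhere. Then for all `f_j ∈ L^∞(μ × ν)` and almost every `z = (x, y)` the averages of
`∏_j f_j (S_j(m) z) - ∏_j E(f_j | X) (S_j(m) x)` over the boxes `[1, M_1] × ⋯ × [1, M_k]` tend to
zero as `min M_l → ∞`. -/
theorem result (n k : ℕ) (hk : 0 < k) {X Y G : Type} [Group G] [MeasurableSpace X]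
    [MeasurableSpace Y] (μ : Measure X) [IsProbabilityMeasure μ]
    (ν : Measure Y) [IsProbabilityMeasure ν] (H : Submodule ℝ (Y → ℝ))
    (S : G →* Equiv.Perm X) (Θ : G →* Equiv.Perm (X × Y)) (hP : IsGaussianExt μ S ν H Θ)
    (t : Fin n → (Fin k → ℕ) → G) (ℛ : Set (Y → ℝ)) (hℛ : ∀ h ∈ ℛ, h ∈ H)
    (hdense : ∀ h ∈ H, ∀ ε : ℝ, 0 < ε → ∃ h' ∈ ℛ, ∫ y, |h y - h' y| ∂ν ≤ ε)
    (hself : ∀ j, ∀ h ∈ ℛ, Summable fun p : (Fin k → ℕ) × (Fin k → ℕ) =>
      relCorr μ ν Θ (t j p.1) (t j p.2) h h / ∏ l, (1 + max (p.1 l : ℝ) (p.2 l)) ^ 2)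
    (hcross : ∀ i j, i ≠ j → ∀ h ∈ ℛ, ∀ h' ∈ ℛ, Summable fun m : Fin k → ℕ =>
      relCorr μ ν Θ (t i m) (t j m) h h' / ∏ l, (1 + (m l : ℝ)))
    (hsingle : ∀ j, (∃ (g : G) (b : Fin k → G), ∀ m, t j m = boxWord g b m) ∨
      SingleAveragesConverge k (μ.prod ν) fun m => Θ (t j m))
    (f : Fin n → X × Y → ℂ) (hf : ∀ j, MemLp (f j) ∞ (μ.prod ν)) :
    ∀ᵐ z ∂(μ.prod ν), Tendsto (fun M : Fin k → ℕ => (∏ l, (M l : ℂ))⁻¹ *
      ∑ m ∈ Fintype.piFinset (fun l => Finset.Icc 1 (M l)),
        (∏ j, f j (Θ (t j m) z) - ∏ j, ∫ y, f j (S (t j m) z.1, y) ∂ν)) atTop (𝓝 0) :=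
  Pool.Agent.K3h50.MB.gauss_char hk hP t hℛ hdense hself hcross hsingle hf

end Pool.Agent.Results.MP_f720ae_an.GaussianExtensionBoxes
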