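import Pool.Agent.K3h50.KB.Sub

/-!
# Unrestricted boxes: the base of a Kolmogorov extension is characteristic almost everywhere

A group `G` acts by measure preserving bijections `Φ g` of a probability space `(X, μ)` and
`ℓ : G → ℝ` is a homomorphism. `𝒴 ⊆ 𝒜` are sub-`σ`-algebras, `𝒴` is invariant, and

* `(Φ g)⁻¹ 𝒜 ⊆ 𝒜` whenever `ℓ g ≤ 0`,
* the `(Φ g)⁻¹ 𝒜`, `g ∈ G`, generate all measurable sets modulo `μ`,
* the intersection of the `(Φ g)⁻¹ 𝒜`, `g ∈ G`, is contained in `𝒴` modulo `μ`,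

that is, the action is a Kolmogorov (`K`-) extension of its factor `𝒴` (for `𝒴` trivial: a
`K`-action). Nothing is assumed about the factor `𝒴`. `G` need not be commutative or nilpotent.

`S_j(m) = g_j b_j1^(m_1) ⋯ b_jk^(m_k)`. For commuting `T_1, …, T_d` and polynomials `P_ij` of degree
at most one, the `T_1^(P_1j(m)) ⋯ T_d^(P_dj(m))` are of this form, with
`b_jl = T_1^(a_1jl) ⋯ T_d^(a_djl)`, where `a_ijl` is the coefficient of `m_l` in `P_ij`.

The theorem: let the vectors `(ℓ (b_j1), …, ℓ (b_jk))` be nonzero and different for different `j`.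
For almost every `x` the averages of `∏_j f_j (S_j(m) x) - ∏_j E(f_j | 𝒴) (S_j(m) x)` over the boxes
`[1, M_1] × ⋯ × [1, M_k]` tend to zero as `min M_l → ∞`, with no restriction on the shape of the
boxes,

* for an arbitrary factor `𝒴`, if all `ℓ (b_jl)` are different from zero,
* for trivial `𝒴`, if `b_jl = 1` whenever `ℓ (b_jl) = 0` (so any of the variables may be missing in
  any of the `S_j`, as in the averages of `f_1(T^(m_1) x) f_2(T^(m_2) x) f_3(T^(m_1 + m_2) x)`).

So in the first case the unrestricted averages of `∏_j f_j (S_j(m) x)` converge almost everywhere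
whenever those of the functions `E(f_j | 𝒴)` on the factor do, and in the second case they converge
to `∏_j ∫ f_j`.

Proof. It is enough to treat products in which the factors with indices in a nonempty set `S` have
vanishing expectation on the base and are measurable with respect to some `(Φ r)⁻¹ 𝒜`, the others
being `𝒴`-measurable (for these reductions the multi-parameter pointwise ergodic theorem for the
ordered products `S_j(m)` is used). Let `m_l` be the variable of the longest side. Along each line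
parallel to the `l`-th axis the term, up to the conditional expectation of the factor whose time
`ℓ (S_j(m))` is the largest on the past of this factor, and away from the points where two of the
times are close to each other, is a sum of boundedly many sequences of martingale differences
(`Pool.Agent.TH784.KE`). The exponential inequality of Azuma shows that almost surely, for all
large `M`, the averages over all of the at most `M^k` lines of length `M` in the cube `[1, M]^k` are
small, so that they are small uniformly over all boxes whose longest side is `M`.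
-/

set_option autoImplicit false

open Filter Topology MeasureTheory
open scoped ENNReal

namespace Pool.Agent.Results.MP_f720ae_an.KolmogorovBoxes

open Pool.Agent.W761.Gauss (BM_of_memLp)

/-- The ordered product `g * b_1 ^ m_1 * ⋯ * b_k ^ m_k`. -/
def boxWord {G : Type} [Group G] {k : ℕ} (g : G) (b : Fin k → G) (m : Fin k → ℕ) : G :=
  g * (List.ofFn fun l => b l ^ m l).prod

/-- Let `X` be a Kolmogorov extension of its factor `𝒴` with respect to the homomorphism
`ℓ : G → ℝ`, let `S_j(m) = g_j b_j1^(m_1) ⋯ b_jk^(m_k)` with nonzero and different vectors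
`(ℓ (b_j1), …, ℓ (b_jk))` and with `b_jl = 1` if `ℓ (b_jl) = 0`, and let `f_1, …, f_n ∈ L^∞(X)`. Let
`ℓ (b_jl) ≠ 0` for all `j` and `l`, or let `𝒴` be trivial modulo `μ`. Then for almost every `x` the
averages of `∏_j f_j (S_j(m) x) - ∏_j E(f_j | 𝒴) (S_j(m) x)` over the boxes
`[1, M_1] × ⋯ × [1, M_k]` tend to zero as `min M_l → ∞`. -/
theorem result (n k : ℕ) {X G : Type} [Group G] (𝒜 𝒴 : MeasurableSpace X)
    [mX : MeasurableSpace X] (μ : Measure X) [IsProbabilityMeasure μ] (Φ : G →* Equiv.Perm X)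
    (hΦ : ∀ g, MeasurePreserving (Φ g) μ μ)
    (ℓ : G → ℝ) (hℓ : ∀ g h, ℓ (g * h) = ℓ g + ℓ h)
    (h𝒜 : 𝒜 ≤ mX) (h𝒴 : 𝒴 ≤ 𝒜) (hinv : ∀ g, Measurable[𝒴, 𝒴] (Φ g : X → X))
    (hmono : ∀ g, ℓ g ≤ 0 → 𝒜.comap (Φ g : X → X) ≤ 𝒜)
    (hgen : ∀ B, MeasurableSet[mX] B →
      ∃ B', MeasurableSet[⨆ g, 𝒜.comap (Φ g : X → X)] B' ∧ B =ᵐ[μ] B')
    (htail : ∀ B, (∀ g, MeasurableSet[𝒜.comap (Φ g : X → X)] B) →
      ∃ B', MeasurableSet[𝒴] B' ∧ B =ᵐ[μ] B')
    (g : Fin n → G) (b : Fin n → Fin k → G) (hb0 : ∀ j, ∃ l, ℓ (b j l) ≠ 0)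
    (hb1 : ∀ j l, ℓ (b j l) = 0 → b j l = 1)
    (hb : ∀ i j, i ≠ j → ∃ l, ℓ (b i l) ≠ ℓ (b j l))
    (hY : (∀ j l, ℓ (b j l) ≠ 0) ∨ ∀ B, MeasurableSet[𝒴] B → μ B = 0 ∨ μ B = 1)
    (f : Fin n → X → ℂ) (hf : ∀ j, MemLp (f j) ∞ μ) :
    ∀ᵐ x ∂μ, Tendsto (fun M : Fin k → ℕ => (∏ l, (M l : ℂ))⁻¹ *
      ∑ m ∈ Fintype.piFinset (fun l => Finset.Icc 1 (M l)),
        (∏ j, f j (Φ (boxWord (g j) (b j) m) x) -
          ∏ j, (μ[f j | 𝒴]) (Φ (boxWord (g j) (b j) m) x))) atTop (𝓝 0) := by
  have hK : Pool.Agent.TH784.KE.KExt μ 𝒜 𝒴 Φ ℓ := ⟨hΦ, ⟨hℓ, h𝒜, hmono⟩, ⟨h𝒴, hinv⟩, hgen, htail⟩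
  choose f' hf' hff' using fun j => BM_of_memLp (hf j)
  have h1 : ∀ᵐ x ∂μ, ∀ (m : Fin k → ℕ) (j : Fin n), f j (Φ (boxWord (g j) (b j) m) x) =
      f' j (Φ (boxWord (g j) (b j) m) x) := by
    rw [ae_all_iff]
    intro m
    rw [ae_all_iff]
    intro j
    exact (hΦ _).quasiMeasurePreserving.ae (hff' j)
  have hcond : ∀ e : Fin n → X → ℂ, (∀ j, μ[f j | 𝒴] =ᵐ[μ] e j) →
      ∀ᵐ x ∂μ, ∀ (m : Fin k → ℕ) (j : Fin n),
      (μ[f j | 𝒴]) (Φ (boxWord (g j) (b j) m) x) = e j (Φ (boxWord (g j) (b j) m) x) := by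
    intro e he
    rw [ae_all_iff]
    intro m
    rw [ae_all_iff]
    intro j
    exact (hΦ _).quasiMeasurePreserving.ae (he j)
  rcases n.eq_zero_or_pos with rfl | hn
  · refine Eventually.of_forall fun x => ?_
    simp
  have hk : 0 < k := by
    obtain ⟨l, _⟩ := hb0 ⟨0, hn⟩
    exact l.pos
  rcases hY with hY | hY
  · choose e he heY hee hfe using fun j =>
      Pool.Agent.TH784.KE.exists_cond (μ := μ) (h𝒴.trans h𝒜) (hf' j)
    have hmain := Pool.Agent.K3h50.KB.box_char hk hK g b hY hb hf' he heY hfe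
    have h2 := hcond e fun j => (condExp_congr_ae (hff' j)).trans (hee j).symm
    filter_upwards [hmain, h1, h2] with x hx hx1 hx2
    refine hx.congr fun N => ?_
    rw [Pool.Agent.K3h50.KB.bxc_shift N fun m =>
      (∏ j, f' j (Φ (Pool.Agent.K3h50.KB.word (g j) (b j) m) x) -
        ∏ j, e j (Φ (Pool.Agent.K3h50.KB.word (g j) (b j) m) x))]
    congr 1
    refine Finset.sum_congr rfl fun m _ => ?_
    congr 1
    · exact Finset.prod_congr rfl fun j _ => (hx1 m j).symm
    · exact Finset.prod_congr rfl fun j _ => (hx2 m j).symm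
  · have hi : ∀ j, Integrable (f' j) μ := fun j => by
      obtain ⟨hm, C, hC⟩ := hf' j
      exact Integrable.of_bound hm.aestronglyMeasurable C (Eventually.of_forall hC)
    have hmain := Pool.Agent.K3h50.KB.box_const hK g b hb1 hb0 hb (f := f')
      (e := fun j => ∫ y, f' j y ∂μ) hf' (fun j B hB => by
        rw [integral_sub (hi j).integrableOn integrableOn_const,
          Pool.Agent.K3h50.KB.triv_int (h𝒴.trans h𝒜) hY (hi j) B hB, sub_self])
    have h2 := hcond (fun j _ => ∫ y, f' j y ∂μ) fun j => (condExp_congr_ae (hff' j)).trans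
      (Pool.Agent.K3h50.KB.triv_cond (h𝒴.trans h𝒜) hY (hi j))
    filter_upwards [hmain, h1, h2] with x hx hx1 hx2
    refine hx.congr fun N => ?_
    rw [Pool.Agent.K3h50.KB.bxc_shift N fun m =>
      (∏ j, f' j (Φ (Pool.Agent.K3h50.KB.word (g j) (b j) m) x) -
        ∏ j, ∫ y, f' j y ∂μ)]
    congr 1
    refine Finset.sum_congr rfl fun m _ => ?_
    congr 1
    · exact Finset.prod_congr rfl fun j _ => (hx1 m j).symm
    · exact Finset.prod_congr rfl fun j _ => (hx2 m j).symm

end Pool.Agent.Results.MP_f720ae_an.KolmogorovBoxes
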