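import Pool.Agent.K3h50.MB.Main

/-!
# Unrestricted boxes: extensions with mixing fibres over arbitrary actions

A group `G` acts on `X × Y` by maps `Θ g`, which preserve `μ × ν` and cover the action `S` of `G`
on the probability space `(X, μ)` (an arbitrary measure preserving action, not necessarily ergodic);
`ℓ` is a homomorphism from `G` to a real normed space `V` (for an action of `ℤ^d`, that is, for
commuting maps `T_1, …, T_d`, one takes `V = ℝ^d` and the inclusion).

The fibres are mixing of order `2 n` with rates: there is a family `𝒟` of measurable functions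
`Y → [-1, 1]` of integral zero, which together with the constants span a dense subspace of `L¹(ν)`,
and for all `g_1, …, g_p` in `𝒟`, `2 ≤ p ≤ 2 n`, there is a nonincreasing `r ≥ 0` with
`∑_h (h + 1)^(k - 1) r (2^h) < ∞` and

`∫ |∫ ∏_i g_i (Θ(t_i) (x, y))_2 dν(y)| dμ(x) ≤ ∑_{i ≠ j} r (‖ℓ t_i - ℓ t_j‖)` for all
`t_1, …, t_p ∈ G`.

Rates `r x = C (log x)^(-κ)` with `κ > k` are sufficient (`k` is the number of parameters of the
boxes; for `k = 1` the condition is `∑ r h / h < ∞`).

Examples: direct products `S × R` with an arbitrary action `S`, and `R` an action of `ℤ^d` by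
commuting translations of a homogeneous space of a semisimple Lie group (with strong spectral gap)
such that the elements of norm `h` in `ℤ^d` have translations of size at least a power of `h`: the
correlations of smooth functions of all orders are bounded by a power of the least distance of the
times (Björklund, Einsiedler and Gorodnik); skew products of such actions with cocycles of an
arbitrary action which grow in the mean.

`S_j(m) = g_j b_j1^(m_1) ⋯ b_jk^(m_k)`. For commuting `T_1, …, T_d` and polynomials `P_ij` of degree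
at most one the `T_1^(P_1j(m)) ⋯ T_d^(P_dj(m))` are of this form.

The theorem: if `ℓ (b_jl) ≠ 0` for all `j` and `l`, and `ℓ (b_il) ≠ ℓ (b_jl)` for all `i ≠ j` and all
`l`, then for all `f_j ∈ L^∞(X × Y)` and almost every `z` the averages of
`∏_j f_j (S_j(m) z) - ∏_j E(f_j | X) (S_j(m) z)` over the boxes `[1, M_1] × ⋯ × [1, M_k]` tend to zero
as `min M_l → ∞`, with no restriction on the shape of the boxes. So the averages of
`∏_j f_j (S_j(m) z)` converge almost everywhere whenever those on the base do, and to `∏_j ∫ f_j` if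
`X` is a point.

Proof. For functions `f_j = 1_{D_j} ⊗ g_j` the second moment of the average over a box is at most
`C (r (√M) + M^(-1/2))`, where `M` is the longest side: along the lines in the direction of this
side the differences of any two of the `2 n` times run through arithmetic progressions of `V` with
nonzero differences. The number of boxes with sides in a geometric progression and a given longest
side is polynomial in its logarithm, so that the second moments over all of these boxes are summable;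
the other boxes are interpolated. General `f_j` are approximated with the help of the
multi-parameter ergodic theorem of Dunford and Zygmund for the ordered products `S_j(m)`.
-/

set_option autoImplicit false

open Filter Topology MeasureTheory
open scoped ENNReal

namespace Pool.Agent.Results.MP_f720ae_an.MixingBoxes

/-- The ordered product `g * b_1 ^ m_1 * ⋯ * b_k ^ m_k`. -/
def boxWord {G : Type} [Group G] {k : ℕ} (g : G) (b : Fin k → G) (m : Fin k → ℕ) : G :=
  g * (List.ofFn fun l => b l ^ m l).prod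

/-- Let the group `G` act on `X × Y` by maps `Θ g` which preserve `μ × ν` and cover an arbitrary
measure preserving action `S` on `X`, let `ℓ` be a homomorphism from `G` to a normed space, and let
the fibres be mixing of order `2 n` with rates `r`, `∑_h (h + 1)^(k - 1) r (2^h) < ∞`. Let
`S_j(m) = g_j b_j1^(m_1) ⋯ b_jk^(m_k)`, `ℓ (b_jl) ≠ 0` for all `j, l`, and `ℓ (b_il) ≠ ℓ (b_jl)` for
all `i ≠ j` and all `l`. Then for all `f_j ∈ L^∞(μ × ν)` and almost every `z = (x, y)` the averages of
`∏_j f_j (S_j(m) z) - ∏_j E(f_j | X) (S_j(m) x)` over the boxes `[1, M_1] × ⋯ × [1, M_k]` tend to zero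
as `min M_l → ∞`. -/
theorem result (n k : ℕ) (hk : 0 < k) {X Y G V : Type} [Group G] [MeasurableSpace X] [MeasurableSpace Y]
    [NormedAddCommGroup V] [NormedSpace ℝ V] (μ : Measure X) [IsProbabilityMeasure μ]
    (ν : Measure Y) [IsProbabilityMeasure ν]
    (S : G →* Equiv.Perm X) (hS : ∀ g, MeasurePreserving (S g) μ μ)
    (Θ : G →* Equiv.Perm (X × Y)) (hΘ : ∀ g, MeasurePreserving (Θ g) (μ.prod ν) (μ.prod ν))
    (hfst : ∀ g z, (Θ g z).1 = S g z.1)
    (ℓ : G → V) (hℓ : ∀ g h, ℓ (g * h) = ℓ g + ℓ h)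
    (𝒟 : Set (Y → ℝ)) (h𝒟 : ∀ g ∈ 𝒟, Measurable g ∧ (∀ y, |g y| ≤ 1) ∧ ∫ y, g y ∂ν = 0)
    (hdense : ∀ A, MeasurableSet A → ∀ ε : ℝ, 0 < ε →
      ∃ h ∈ Submodule.span ℝ (insert (fun _ => (1 : ℝ)) 𝒟),
        ∫ y, |A.indicator (fun _ => (1 : ℝ)) y - h y| ∂ν ≤ ε)
    (hmix : ∀ (p : ℕ) (g : Fin p → Y → ℝ), 2 ≤ p → p ≤ 2 * n → (∀ i, g i ∈ 𝒟) → ∃ r : ℝ → ℝ,
      (∀ x, 0 ≤ r x) ∧ Antitone r ∧
      Summable (fun h : ℕ => ((h : ℝ) + 1) ^ (k - 1) * r (2 ^ h)) ∧
      ∀ t : Fin p → G, ∫ x, |∫ y, ∏ i, g i (Θ (t i) (x, y)).2 ∂ν| ∂μ ≤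
        ∑ i, ∑ j, if i = j then 0 else r ‖ℓ (t i) - ℓ (t j)‖)
    (g : Fin n → G) (b : Fin n → Fin k → G) (hb0 : ∀ j l, ℓ (b j l) ≠ 0)
    (hb : ∀ i j, i ≠ j → ∀ l, ℓ (b i l) ≠ ℓ (b j l))
    (f : Fin n → X × Y → ℂ) (hf : ∀ j, MemLp (f j) ∞ (μ.prod ν)) :
    ∀ᵐ z ∂(μ.prod ν), Tendsto (fun M : Fin k → ℕ => (∏ l, (M l : ℂ))⁻¹ *
      ∑ m ∈ Fintype.piFinset (fun l => Finset.Icc 1 (M l)),
        (∏ j, f j (Θ (boxWord (g j) (b j) m) z) -
          ∏ j, ∫ y, f j (S (boxWord (g j) (b j) m) z.1, y) ∂ν)) atTop (𝓝 0) :=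
  Pool.Agent.K3h50.MB.mix_char (K := 2 * n) hk hS hΘ hfst hℓ h𝒟 hdense hmix le_rfl g b hb0 hb hf

end Pool.Agent.Results.MP_f720ae_an.MixingBoxes
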