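import Pool.Agent.K3h50.MB.Poi

/-!
# Unrestricted boxes: Poisson extensions of arbitrary actions

`IsPoissonExt μ S κ R ν Θ`: the group `G` acts by `S` on the probability space `(X, μ)` (an arbitrary
measure preserving action), by `R` on `X × W` and by `Θ` on `X × Y`, both over `S`; for every `g` and
almost every `x` the fibre map `w ↦ (R g (x, w))_2` preserves the (typically infinite) measure `κ`, and
`y ↦ (Θ g (x, y))_2` preserves the probability measure `ν`; there are events `E A` in `Y` (that no point
of the configuration lies in `A`) for the measurable sets `A` with `κ A < ∞`, which generate the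
σ-algebra modulo null sets, with `ν (E A) = exp (-κ A)`, `E (A ∪ B) = E A ∩ E B`, and the preimage of
`E A` under the fibre map of `Θ g` is `E` of the preimage of `A` under the fibre map of `R g`, modulo
null sets. So `Θ` is the Poisson suspension of `R` relative to the base: a configuration of points of
`W` is moved by maps driven by the base. For a product `R = S × R'` this is the product of `S` and the
Poisson suspension of `R'`.

`S_j(m)`, `m ∈ ℕ^k`, are arbitrary families of elements of `G` such that for all `A`, `B` in a family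
`ℛ` of sets of finite measure which is dense among all such sets

* `∑_{m, m'} (μ × κ)(R(S_j(m))⁻¹ (X × A) ∩ R(S_j(m'))⁻¹ (X × A)) / ∏_l (1 + max (m_l, m'_l))² < ∞`,
* `∑_m (μ × κ)(R(S_i(m))⁻¹ (X × A) ∩ R(S_j(m))⁻¹ (X × B)) / ∏_l (1 + m_l) < ∞` for `i ≠ j`,
* `S_j` is an ordered product `g b_1^(m_1) ⋯ b_k^(m_k)`, or the unrestricted box averages of single
  bounded functions along `S_j` converge almost everywhere.

For commuting `T_1, …, T_d` and polynomials `P_ij` of degree at most one the
`T_1^(P_1j(m)) ⋯ T_d^(P_dj(m))` are ordered products, and by the invariance of `μ × κ` the first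
condition is equivalent to
`∑_{p ∈ ℤ^k} (μ × κ)((X × A) ∩ R(∏ b_jl^(p_l))⁻¹ (X × A)) / ∏_l (1 + |p_l|) < ∞`.

Then for all `f_j ∈ L^∞(X × Y)` and almost every `z` the averages of
`∏_j f_j (S_j(m) z) - ∏_j E(f_j | X) (S_j(m) z)` over the boxes `[1, M_1] × ⋯ × [1, M_k]` tend to zero
as `min M_l → ∞`, with no restriction on the shape of the boxes.

Proof. The products of void events along the fibre of almost every `x` are void events of unions,
whose covariances are bounded by the overlaps. A family of variables whose second moments over boxes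
are bounded by sums of `q (m, m')` with `∑ q (m, m') / ∏_l (1 + max (m_l, m'_l))² < ∞` has summable second
moments over the boxes with sides in a geometric progression (`LP_box`); the other boxes are
interpolated. The overlaps of different sequences at the same time tend to zero in the mean by a
multi-parameter version of Kronecker's lemma.
-/

set_option autoImplicit false

open Filter Topology MeasureTheory
open scoped ENNReal symmDiff

namespace Pool.Agent.Results.MP_f720ae_an.PoissonExtensionBoxes

open Pool.Agent.K3h50.MB (IsPoissonExt)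

/-- The ordered product `g * b_1 ^ m_1 * ⋯ * b_k ^ m_k`. -/
def boxWord {G : Type} [Group G] {k : ℕ} (g : G) (b : Fin k → G) (m : Fin k → ℕ) : G :=
  g * (List.ofFn fun l => b l ^ m l).prod

/-- The averages over the boxes `[1, M_1] × ⋯ × [1, M_k]` of single bounded functions along the maps
`t m` converge almost everywhere as `min M_l → ∞`. -/
def SingleAveragesConverge {Z : Type} [MeasurableSpace Z] (k : ℕ) (P : Measure Z)
    (t : (Fin k → ℕ) → Z → Z) : Prop :=
  ∀ H : Z → ℝ, Measurable H → (∃ C : ℝ, ∀ z, |H z| ≤ C) →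
    ∀ᵐ z ∂P, ∃ L : ℝ, Tendsto (fun M : Fin k → ℕ => (∏ l, (M l : ℝ))⁻¹ *
      ∑ n ∈ Fintype.piFinset (fun l => Finset.Icc 1 (M l)), H (t n z)) atTop (𝓝 L)

/-- Let the action `Θ` of `G` on `X × Y` be a Poisson extension of the arbitrary action `S` on `X`,
relative to the action `R` on `X × W`, and let `S_1, …, S_n : ℕ^k → G` be families with summable
relative overlaps, each an ordered product or such that the unrestricted box averages of single
bounded functions converge almost everywhere. Then for all `f_j ∈ L^∞(μ × ν)` and almost every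
`z = (x, y)` the averages of `∏_j f_j (S_j(m) z) - ∏_j E(f_j | X) (S_j(m) x)` over the boxes
`[1, M_1] × ⋯ × [1, M_k]` tend to zero as `min M_l → ∞`. -/
theorem result (n k : ℕ) (hk : 0 < k) {X Y W G : Type} [Group G] [MeasurableSpace X]
    [MeasurableSpace Y] [MeasurableSpace W] (μ : Measure X) [IsProbabilityMeasure μ]
    (ν : Measure Y) [IsProbabilityMeasure ν] (κ : Measure W) [SFinite κ]
    (S : G →* Equiv.Perm X) (R : G →* Equiv.Perm (X × W)) (Θ : G →* Equiv.Perm (X × Y))
    (hP : IsPoissonExt μ S κ R ν Θ) (t : Fin n → (Fin k → ℕ) → G)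
    (ℛ : Set (Set W)) (hℛ : ∀ A ∈ ℛ, MeasurableSet A ∧ κ A ≠ ∞)
    (hdense : ∀ A, MeasurableSet A → κ A ≠ ∞ → ∀ ε : ℝ, 0 < ε →
      ∃ B ∈ ℛ, (κ (A ∆ B)).toReal ≤ ε)
    (hself : ∀ j, ∀ A ∈ ℛ, Summable fun p : (Fin k → ℕ) × (Fin k → ℕ) =>
      (μ.prod κ).real (R (t j p.1) ⁻¹' (Set.univ ×ˢ A) ∩ R (t j p.2) ⁻¹' (Set.univ ×ˢ A)) /
          ∏ l, (1 + max (p.1 l : ℝ) (p.2 l)) ^ 2)
    (hcross : ∀ i j, i ≠ j → ∀ A ∈ ℛ, ∀ B ∈ ℛ, Summable fun m : Fin k → ℕ =>
      (μ.prod κ).real (R (t i m) ⁻¹' (Set.univ ×ˢ A) ∩ R (t j m) ⁻¹' (Set.univ ×ˢ B)) /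
        ∏ l, (1 + (m l : ℝ)))
    (hsingle : ∀ j, (∃ (g : G) (b : Fin k → G), ∀ m, t j m = boxWord g b m) ∨
      SingleAveragesConverge k (μ.prod ν) fun m => Θ (t j m))
    (f : Fin n → X × Y → ℂ) (hf : ∀ j, MemLp (f j) ∞ (μ.prod ν)) :
    ∀ᵐ z ∂(μ.prod ν), Tendsto (fun M : Fin k → ℕ => (∏ l, (M l : ℂ))⁻¹ *
      ∑ m ∈ Fintype.piFinset (fun l => Finset.Icc 1 (M l)),
        (∏ j, f j (Θ (t j m) z) - ∏ j, ∫ y, f j (S (t j m) z.1, y) ∂ν)) atTop (𝓝 0) :=
  Pool.Agent.K3h50.MB.poisson_char hk hP t hℛ hdense hself hcross hsingle hf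

end Pool.Agent.Results.MP_f720ae_an.PoissonExtensionBoxes
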